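import Pool.Agent.H49.E2.End

/-!
# The end step with the chain theorem plugged in
-/

set_option autoImplicit false

namespace ALoop

open Equiv

variable {Q : Type*} {G : Subgroup (Perm Q)} {L : Q → Perm Q} {e : Q}

/-- `T = t(a,b)`, `T^(2m) = 1`, `m` odd: `T^m` inverts no nontrivial element of odd order with a fixed
point -/
theorem AE.end_inv (h : AE G L e) (a b r : Q)
    (hcc : ∀ i j : ℤ, ((tt L a b) ^ i * uu L a b r * (tt L a b) ^ (-i)) *
      ((tt L a b) ^ j * uu L a b r * (tt L a b) ^ (-j)) =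
      ((tt L a b) ^ j * uu L a b r * (tt L a b) ^ (-j)) *
      ((tt L a b) ^ i * uu L a b r * (tt L a b) ^ (-i)))
    (hco : ∀ n : ℕ, Odd n → ∃ w ∈ Subgroup.closure
      {g | ∃ i : ℤ, g = (tt L a b) ^ i * uu L a b r * (tt L a b) ^ (-i)},
      tt L r (((tt L a b) ^ n) r) = w * tt L a b)
    (hlam : ∀ p q : Q, ∃ n : ℕ, Odd n ∧ (tt L p q * tt L p q) ^ n = 1)
    {m : ℕ} (hm : Odd m) (hT : (tt L a b * tt L a b) ^ m = 1)
    {β : Perm Q} (hβG : β ∈ G) (hβr : β r = r)
    (hinv : (tt L a b) ^ m * β * ((tt L a b) ^ m)⁻¹ = β⁻¹) {p : ℕ} (hp : Odd p)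
    (hβp : β ^ p = 1) : β = 1 := by
  obtain ⟨w, hw, hwk⟩ := hco m hm
  obtain ⟨n, hn, hodd⟩ := hlam r (((tt L a b) ^ m) r)
  obtain ⟨S, hS⟩ : ∃ S : Set (Perm Q),
    S = {g | ∃ i : ℤ, g = (tt L a b) ^ i * uu L a b r * (tt L a b) ^ (-i)} := ⟨_, rfl⟩
  rw [← hS] at hw
  have hTG := h.mem_tt a b
  have hSG : ∀ g ∈ S, g ∈ G := by
    intro g hg
    rw [hS] at hg
    obtain ⟨i, hi⟩ := hg
    rw [hi]
    exact G.mul_mem (G.mul_mem (G.zpow_mem hTG _) (h.mem_uu a b r)) (G.zpow_mem hTG _)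
  have hSc : ∀ x ∈ S, ∀ y ∈ S, x * y = y * x := by
    intro x hx y hy
    rw [hS] at hx hy
    obtain ⟨i, hi⟩ := hx
    obtain ⟨j, hj⟩ := hy
    rw [hi, hj, hcc]
  have hS2 : ∀ x ∈ S, x * x = 1 := by
    intro x hx
    rw [hS] at hx
    obtain ⟨i, hi⟩ := hx
    rw [hi]
    calc (tt L a b) ^ i * uu L a b r * (tt L a b) ^ (-i) *
        ((tt L a b) ^ i * uu L a b r * (tt L a b) ^ (-i)) =
        (tt L a b) ^ i * (uu L a b r * uu L a b r) * (tt L a b) ^ (-i) := by group
      _ = 1 := by rw [h.uu_sq]; group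
  have hUc : ∀ x ∈ Subgroup.closure S, ∀ y ∈ Subgroup.closure S, x * y = y * x := by
    have h1 : Subgroup.closure S ≤ Subgroup.centralizer S := by
      rw [Subgroup.closure_le]
      intro x hx
      rw [SetLike.mem_coe, Subgroup.mem_centralizer_iff]
      intro y hy
      exact hSc y hy x hx
    have h2 : Subgroup.closure S ≤ Subgroup.centralizer (Subgroup.closure S : Set (Perm Q)) := by
      rw [Subgroup.closure_le]
      intro x hx
      rw [SetLike.mem_coe, Subgroup.mem_centralizer_iff]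
      intro y hy
      exact ((Subgroup.mem_centralizer_iff.mp (h1 hy)) x hx).symm
    intro x hx y hy
    exact (Subgroup.mem_centralizer_iff.mp (h2 hy)) x hx
  have hU2 : ∀ x ∈ Subgroup.closure S, x * x = 1 := by
    intro x hx
    induction hx using Subgroup.closure_induction with
    | mem x hx => exact hS2 x hx
    | one => simp
    | mul x y hx hy h1 h2 =>
      calc x * y * (x * y) = x * (y * x) * y := by group
        _ = x * (x * y) * y := by rw [hUc y hy x hx]
        _ = (x * x) * (y * y) := by group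
        _ = 1 := by rw [h1, h2, mul_one]
    | inv x hx h1 =>
      calc x⁻¹ * x⁻¹ = (x * x)⁻¹ := by group
        _ = 1 := by rw [h1, inv_one]
  have hUT : ∀ x ∈ Subgroup.closure S, tt L a b * x * (tt L a b)⁻¹ ∈ Subgroup.closure S := by
    intro x hx
    induction hx using Subgroup.closure_induction with
    | mem x hx =>
      apply Subgroup.subset_closure
      rw [hS] at hx ⊢
      obtain ⟨i, hi⟩ := hx
      refine ⟨i + 1, ?_⟩
      rw [hi]
      have h1 : (tt L a b) ^ (i + 1) = tt L a b * (tt L a b) ^ i := by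
        rw [add_comm, zpow_add, zpow_one]
      have h2 : (tt L a b) ^ (-(i + 1)) = (tt L a b) ^ (-i) * (tt L a b)⁻¹ := by
        rw [neg_add, zpow_add, zpow_neg_one]
      rw [h1, h2]; group
    | one =>
      have : tt L a b * 1 * (tt L a b)⁻¹ = 1 := by group
      rw [this]; exact Subgroup.one_mem _
    | mul x y hx hy h1 h2 =>
      have : tt L a b * (x * y) * (tt L a b)⁻¹ =
          (tt L a b * x * (tt L a b)⁻¹) * (tt L a b * y * (tt L a b)⁻¹) := by group
      rw [this]; exact Subgroup.mul_mem _ h1 h2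
    | inv x hx h1 =>
      have : tt L a b * x⁻¹ * (tt L a b)⁻¹ = (tt L a b * x * (tt L a b)⁻¹)⁻¹ := by group
      rw [this]; exact Subgroup.inv_mem _ h1
  have hT2 : (tt L a b) ^ (2 * m) = 1 := by
    rw [pow_mul, pow_two, hT]
  exact h.end_step hm hT2 (Subgroup.closure S) ((Subgroup.closure_le _).mpr hSG) hUc hU2 hUT hw
    hwk hn hodd hβG hβr hinv hp hβp

end ALoop
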