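import Pool.Agent.H17.E2.Ter
import Pool.Agent.H17.E2.NoInv

/-!
# Automorphic loops of exponent two: the end step

`T = t(a,b)` has order dividing `2m`, `m` odd; `i = T^m` inverts no nontrivial element of odd order which
fixes a point.
-/

set_option autoImplicit false

namespace ALoop

open Equiv

section grp

variable {Γ : Type*} [Group Γ]

/-- two elements of odd order in a coset of an elementary abelian `2`-group -/
theorem end_conj (U : Subgroup Γ) (hUc : ∀ x ∈ U, ∀ y ∈ U, x * y = y * x) (hU2 : ∀ x ∈ U, x * x = 1)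
    (ν v : Γ) (hνU : ∀ x ∈ U, ν * x * ν⁻¹ ∈ U) (hv : v ∈ U) {k : ℕ} (hk : Odd k) (hν : ν ^ k = 1)
    (hvν : (v * ν) ^ k = 1) : ∃ g ∈ U, g * ν * g⁻¹ = v * ν := by
  have hvj : ∀ j : ℕ, ν ^ j * v * (ν ^ j)⁻¹ ∈ U := by
    intro j
    induction j with
    | zero => simpa using hv
    | succ j ih =>
      have h1 := hνU _ ih
      have h2 : ν * (ν ^ j * v * (ν ^ j)⁻¹) * ν⁻¹ = ν ^ (j + 1) * v * (ν ^ (j + 1))⁻¹ := by
        rw [pow_succ' ν j]; group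
      rwa [h2] at h1
  have hP : ∀ n : ℕ, (v * ν) ^ n * (ν ^ n)⁻¹ ∈ U := by
    intro n
    induction n with
    | zero => simp [U.one_mem]
    | succ n ih =>
      have h1 : (v * ν) ^ (n + 1) * (ν ^ (n + 1))⁻¹ =
          ((v * ν) ^ n * (ν ^ n)⁻¹) * (ν ^ n * v * (ν ^ n)⁻¹) := by
        rw [pow_succ, pow_succ]; group
      rw [h1]
      exact U.mul_mem ih (hvj n)
  have hmain : ∀ n : ℕ, ∃ g ∈ U, g * (ν * g⁻¹ * ν⁻¹) = v⁻¹ * ((v * ν) ^ (2 * n + 1) *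
      (ν ^ (2 * n + 1))⁻¹) := by
    intro n
    induction n with
    | zero => exact ⟨1, U.one_mem, by simp⟩
    | succ n ih =>
      obtain ⟨g, hg, hgn⟩ := ih
      obtain ⟨x, hx⟩ : ∃ x, x = ν ^ (2 * n + 1) * v * (ν ^ (2 * n + 1))⁻¹ := ⟨_, rfl⟩
      obtain ⟨y, hy⟩ : ∃ y, y = ν * x * ν⁻¹ := ⟨_, rfl⟩
      have hxU : x ∈ U := hx ▸ hvj _
      have hyU : y ∈ U := hy ▸ hνU _ hxU
      have hgU : ν * g⁻¹ * ν⁻¹ ∈ U := hνU _ (U.inv_mem hg)
      refine ⟨g * x, U.mul_mem hg hxU, ?_⟩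
      have e1 : (v * ν) ^ (2 * (n + 1) + 1) * (ν ^ (2 * (n + 1) + 1))⁻¹ =
          ((v * ν) ^ (2 * n + 1) * (ν ^ (2 * n + 1))⁻¹) * x * y := by
        rw [hy, hx, show 2 * (n + 1) + 1 = (2 * n + 1) + 1 + 1 by ring, pow_succ _ (2 * n + 1 + 1),
          pow_succ _ (2 * n + 1), pow_succ ν (2 * n + 1 + 1), pow_succ ν (2 * n + 1)]
        have e2 : ν * (ν ^ (2 * n + 1)) = ν ^ (2 * n + 1) * ν := (Commute.refl ν).pow_right _
        generalize ν ^ (2 * n + 1) = w at *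
        generalize (v * ν) ^ (2 * n + 1) = z at *
        have e3 : ν * (w * v * w⁻¹) * ν⁻¹ = w * ν * v * ν⁻¹ * w⁻¹ := by
          have : ν * (w * v * w⁻¹) * ν⁻¹ = (ν * w) * v * (ν * w)⁻¹ := by group
          rw [this, e2]; group
        rw [e3]; group
      have hyi : y⁻¹ = y := by rw [inv_eq_iff_mul_eq_one, hU2 _ hyU]
      have e4 : g * x * (ν * (g * x)⁻¹ * ν⁻¹) = g * x * (y⁻¹ * (ν * g⁻¹ * ν⁻¹)) := by
        rw [hy]; group
      rw [e4, e1, hyi, hUc y hyU _ hgU]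
      have e5 : g * x * (ν * g⁻¹ * ν⁻¹ * y) = g * (x * (ν * g⁻¹ * ν⁻¹)) * y := by group
      rw [e5, hUc x hxU _ hgU]
      have e6 : g * (ν * g⁻¹ * ν⁻¹ * x) * y = (g * (ν * g⁻¹ * ν⁻¹)) * x * y := by group
      rw [e6, hgn]; group
  obtain ⟨n, hn⟩ := hk
  obtain ⟨g, hg, hgn⟩ := hmain n
  refine ⟨g, hg, ?_⟩
  rw [← hn, hν, hvν] at hgn
  have hvi : v⁻¹ = v := by rw [inv_eq_iff_mul_eq_one, hU2 _ hv]
  rw [inv_one, mul_one, mul_one, hvi] at hgn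
  calc g * ν * g⁻¹ = g * (ν * g⁻¹ * ν⁻¹) * ν := by group
    _ = v * ν := by rw [hgn]

end grp

variable {Q : Type*} {G : Subgroup (Perm Q)} {L : Q → Perm Q} {e : Q}

/-- the end step -/
theorem AE.end_step (h : AE G L e) {a b r : Q} {m : ℕ} (hm : Odd m)
    (hT : (tt L a b) ^ (2 * m) = 1)
    (U : Subgroup (Perm Q)) (hUG : U ≤ G) (hUc : ∀ x ∈ U, ∀ y ∈ U, x * y = y * x)
    (hU2 : ∀ x ∈ U, x * x = 1) (hUT : ∀ x ∈ U, tt L a b * x * (tt L a b)⁻¹ ∈ U)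
    {k : Perm Q} (hkU : k ∈ U) (hk : tt L r (((tt L a b) ^ m) r) = k * tt L a b)
    {n : ℕ} (hn : Odd n)
    (hodd : (tt L r (((tt L a b) ^ m) r) * tt L r (((tt L a b) ^ m) r)) ^ n = 1)
    {β : Perm Q} (hβG : β ∈ G) (hβr : β r = r)
    (hinv : (tt L a b) ^ m * β * ((tt L a b) ^ m)⁻¹ = β⁻¹) {p : ℕ} (hp : Odd p)
    (hβp : β ^ p = 1) : β = 1 := by
  obtain ⟨T, hTd⟩ : ∃ T, T = tt L a b := ⟨_, rfl⟩
  have hTG : T ∈ G := hTd ▸ h.mem_tt a b
  rw [← hTd] at hT hUT hk hodd hinv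
  obtain ⟨i, hi⟩ : ∃ i, i = T ^ m := ⟨_, rfl⟩
  rw [← hi] at hk hodd hinv
  have hiG : i ∈ G := hi ▸ G.pow_mem hTG m
  have hii : i * i = 1 := by
    rw [hi, ← pow_add, ← two_mul, hT]
  have hiinv : i⁻¹ = i := by rw [inv_eq_iff_mul_eq_one, hii]
  have hiT : i * T = T * i := by
    rw [hi]; exact ((Commute.refl T).pow_left m)
  obtain ⟨x, hx⟩ : ∃ x, x = i r := ⟨_, rfl⟩
  rw [← hx] at hk hodd
  have hix : i x = r := by
    rw [hx, ← Perm.mul_apply, hii]; rfl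
  -- `β` fixes `x`
  have hβi : β * i = i * β⁻¹ := by
    rw [← hinv, hiinv]
    calc β * i = (i * i) * (β * i) := by rw [hii, one_mul]
      _ = i * (i * β * i) := by group
  have hβinvr : β⁻¹ r = r := by rw [Perm.inv_eq_iff_eq, hβr]
  have hβx : β x = x := by
    rw [hx, ← Perm.mul_apply, hβi, Perm.mul_apply, hβinvr]
  obtain ⟨C, hC⟩ : ∃ C, C = tt L r x := ⟨_, rfl⟩
  have hβC : β * C = C * β := by rw [hC]; exact h.tt_cent hβG hβr hβx
  have hiC : i * C = C * i := by rw [hC]; exact h.tt_cent' hiG hx.symm hix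
  rw [← hC] at hk hodd
  have hik : i * k = k * i := by
    have hkC : k = C * T⁻¹ := by rw [hk]; group
    have hiTinv : i * T⁻¹ = T⁻¹ * i := by
      calc i * T⁻¹ = T⁻¹ * (T * i) * T⁻¹ := by group
        _ = T⁻¹ * (i * T) * T⁻¹ := by rw [hiT]
        _ = T⁻¹ * i := by group
    rw [hkC, ← mul_assoc, hiC, mul_assoc, hiTinv, mul_assoc]
  -- `ν`
  obtain ⟨ν, hν⟩ : ∃ ν, ν = T ^ (m + 1) := ⟨_, rfl⟩
  have hiν : i * ν = T := by
    rw [hi, hν, ← pow_add, show m + (m + 1) = 2 * m + 1 by ring, pow_succ, hT, one_mul]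
  have hiν' : i * ν = ν * i := by
    rw [hi, hν, ← pow_add, ← pow_add, add_comm]
  have hνm : ν ^ m = 1 := by
    obtain ⟨l, hl⟩ := hm
    rw [hν, ← pow_mul, show (m + 1) * m = (2 * m) * (l + 1) by rw [hl]; ring, pow_mul, hT, one_pow]
  have hνU : ∀ y ∈ U, ν * y * ν⁻¹ ∈ U := by
    have h1 : ∀ j : ℕ, ∀ y ∈ U, T ^ j * y * (T ^ j)⁻¹ ∈ U := by
      intro j
      induction j with
      | zero => intro y hy; simpa using hy
      | succ j ih =>
        intro y hy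
        have h2 := hUT _ (ih y hy)
        have h3 : T * (T ^ j * y * (T ^ j)⁻¹) * T⁻¹ = T ^ (j + 1) * y * (T ^ (j + 1))⁻¹ := by
          rw [pow_succ' T j]; group
        rwa [h3] at h2
    intro y hy
    rw [hν]
    exact h1 _ y hy
  -- `C² = (kν)²`
  obtain ⟨w, hw⟩ : ∃ w, w = k * ν := ⟨_, rfl⟩
  have hiw : i * w = w * i := by rw [hw, ← mul_assoc, hik, mul_assoc, hiν', mul_assoc]
  have hCw : C = i * w := by
    rw [hk, hw, ← hiν, ← mul_assoc, ← hik, mul_assoc]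
  have hCC : C * C = w * w := by
    calc C * C = (i * w) * (i * w) := by rw [hCw]
      _ = (w * i) * (i * w) := by rw [hiw]
      _ = w * (i * i) * w := by group
      _ = w * w := by rw [hii, mul_one]
  -- `ρ`
  obtain ⟨N, hN⟩ : ∃ N, N = n * m := ⟨_, rfl⟩
  have hNodd : Odd N := hN ▸ hn.mul hm
  have hwN : w ^ (2 * N) = 1 := by
    have h1 : (w ^ 2) ^ n = 1 := by rw [pow_two, ← hCC, hodd]
    rw [hN, show 2 * (n * m) = 2 * n * m by ring, pow_mul, pow_mul, h1, one_pow]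
  obtain ⟨ρ, hρ⟩ : ∃ ρ, ρ = w ^ (N + 1) := ⟨_, rfl⟩
  have hρN : ρ ^ N = 1 := by
    obtain ⟨l, hl⟩ := hNodd
    rw [hρ, ← pow_mul, show (N + 1) * N = (2 * N) * (l + 1) by rw [hl]; ring, pow_mul, hwN, one_pow]
  have hρC : ∃ j : ℕ, ρ = (C * C) ^ j := by
    obtain ⟨l, hl⟩ := hNodd
    refine ⟨l + 1, ?_⟩
    rw [hρ, hCC, ← pow_two, ← pow_mul, hl]
    congr 1
  obtain ⟨j, hj⟩ := hρC
  have hβρ : β * ρ = ρ * β := by
    have h1 : Commute β C := hβC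
    rw [hj]
    exact ((h1.mul_right h1).pow_right j)
  have hiρ : i * ρ = ρ * i := by
    have h1 : Commute i C := hiC
    rw [hj]
    exact ((h1.mul_right h1).pow_right j)
  have hwU : ∀ l : ℕ, w ^ l * (ν ^ l)⁻¹ ∈ U := by
    have hvj : ∀ j : ℕ, ν ^ j * k * (ν ^ j)⁻¹ ∈ U := by
      intro j
      induction j with
      | zero => simpa using hkU
      | succ j ih =>
        have h1 := hνU _ ih
        have h2 : ν * (ν ^ j * k * (ν ^ j)⁻¹) * ν⁻¹ = ν ^ (j + 1) * k * (ν ^ (j + 1))⁻¹ := by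
          rw [pow_succ' ν j]; group
        rwa [h2] at h1
    intro l
    induction l with
    | zero => simp [U.one_mem]
    | succ l ih =>
      have h1 : w ^ (l + 1) * (ν ^ (l + 1))⁻¹ =
          (w ^ l * (ν ^ l)⁻¹) * (ν ^ l * k * (ν ^ l)⁻¹) := by
        rw [pow_succ, pow_succ, hw]; group
      rw [h1]
      exact U.mul_mem ih (hvj l)
  have hνN : ν ^ N = 1 := by rw [hN, mul_comm, pow_mul, hνm, one_pow]
  obtain ⟨v, hv⟩ : ∃ v, v = ρ * ν⁻¹ := ⟨_, rfl⟩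
  have hvU : v ∈ U := by
    have h1 := hwU (N + 1)
    rw [← hρ, pow_succ, hνN, one_mul, ← hv] at h1
    exact h1
  have hvν : v * ν = ρ := by rw [hv]; group
  have hiv : i * v = v * i := by
    have hiνinv : i * ν⁻¹ = ν⁻¹ * i := by
      calc i * ν⁻¹ = ν⁻¹ * (ν * i) * ν⁻¹ := by group
        _ = ν⁻¹ * (i * ν) * ν⁻¹ := by rw [hiν']
        _ = ν⁻¹ * i := by group
    rw [hv, ← mul_assoc, hiρ, mul_assoc, hiνinv, mul_assoc]
  -- the conjugating element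
  obtain ⟨g, hg, hgν⟩ := end_conj (U ⊓ Subgroup.centralizer {i})
    (fun y hy z hz => hUc y hy.1 z hz.1) (fun y hy => hU2 y hy.1) ν v
    (by
      intro y hy
      refine ⟨hνU y hy.1, ?_⟩
      have h1 : i * y = y * i := (Subgroup.mem_centralizer_singleton_iff.mp hy.2).symm
      refine Subgroup.mem_centralizer_singleton_iff.mpr (Eq.symm ?_)
      have hiνinv : i * ν⁻¹ = ν⁻¹ * i := by
        calc i * ν⁻¹ = ν⁻¹ * (ν * i) * ν⁻¹ := by group
          _ = ν⁻¹ * (i * ν) * ν⁻¹ := by rw [hiν']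
          _ = ν⁻¹ * i := by group
      calc i * (ν * y * ν⁻¹) = (i * ν) * y * ν⁻¹ := by group
        _ = ν * (i * y) * ν⁻¹ := by rw [hiν']; group
        _ = ν * y * (i * ν⁻¹) := by rw [h1]; group
        _ = (ν * y * ν⁻¹) * i := by rw [hiνinv]; group)
    ⟨hvU, Subgroup.mem_centralizer_singleton_iff.mpr hiv.symm⟩ hNodd hνN
    (by rw [hvν, hρN])
  have hgi : i * g = g * i := (Subgroup.mem_centralizer_singleton_iff.mp hg.2).symm
  have hgG : g ∈ G := hUG hg.1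
  have hT1 : tt L (g a) (g b) = i * ρ := by
    rw [← h.tt_conj hgG a b, ← hTd, ← hiν, ← hvν, ← hgν]
    calc g * (i * ν) * g⁻¹ = (g * i) * ν * g⁻¹ := by group
      _ = (i * g) * ν * g⁻¹ := by rw [hgi]
      _ = i * (g * ν * g⁻¹) := by group
  refine h.no_inv hβG (p := g a) (q := g b) ?_ hp hβp
  rw [hT1]
  calc i * ρ * β * (i * ρ)⁻¹ = i * (ρ * β) * ρ⁻¹ * i⁻¹ := by group
    _ = i * (β * ρ) * ρ⁻¹ * i⁻¹ := by rw [hβρ]
    _ = i * β * i⁻¹ := by group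
    _ = β⁻¹ := hinv

end ALoop
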